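import Pool.Agent.Y315.OP.Stm

/-!
Project OP (helper315): uniform smallness of the tails.
-/

set_option autoImplicit false

open MeasureTheory Filter Topology
open scoped ContDiff ENNReal

namespace Pool.Agent.Y277.OP

open Pool.Agent.Y315.OP

theorem pt_large (a b C₁ : ℝ) (hb : |b| ≤ C₁) (ha : 2 * C₁ + 1 < |a|) :
    ‖a‖ₑ ^ 2 ≤ 4 * ‖b - a‖ₑ ^ 2 := by
  have h1 : |a| ≤ 2 * |b - a| := by
    have h2 : |a| - |b| ≤ |a - b| := abs_sub_abs_le_abs_sub a b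
    rw [abs_sub_comm a b] at h2
    linarith
  have h3 : ‖a‖ₑ ≤ 2 * ‖b - a‖ₑ := by
    rw [Real.enorm_eq_ofReal_abs, Real.enorm_eq_ofReal_abs]
    have h4 : (2 : ℝ≥0∞) = ENNReal.ofReal 2 := by norm_num
    rw [h4, ← ENNReal.ofReal_mul (by norm_num)]
    exact ENNReal.ofReal_le_ofReal h1
  calc ‖a‖ₑ ^ 2 ≤ (2 * ‖b - a‖ₑ) ^ 2 := by gcongr
    _ = 4 * ‖b - a‖ₑ ^ 2 := by
      rw [mul_pow]
      norm_num

theorem pt_holder (p : ℝ) (hp : 0 < p) (f V : ℝ≥0∞) (hV0 : V ≠ 0) (hVt : V = ⊤ → f = 0) :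
    f ^ (2 * p / (p + 1)) ≤ (V * f ^ 2) ^ (p / (p + 1)) * (V ^ (-p)) ^ (1 / (p + 1)) := by
  by_cases hV : V = ⊤
  · rw [hVt hV, ENNReal.zero_rpow_of_pos (by positivity)]
    exact bot_le
  · have ha : 0 ≤ p / (p + 1) := by positivity
    rw [ENNReal.mul_rpow_of_nonneg _ _ ha, ← ENNReal.rpow_natCast, ← ENNReal.rpow_mul,
      ← ENNReal.rpow_mul]
    have h1 : V ^ (p / (p + 1)) * V ^ (-p * (1 / (p + 1))) = 1 := by
      rw [← ENNReal.rpow_add _ _ hV0 hV]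
      have h2 : p / (p + 1) + -p * (1 / (p + 1)) = 0 := by
        field_simp
        ring
      rw [h2, ENNReal.rpow_zero]
    have h3 : V ^ (p / (p + 1)) * f ^ (((2 : ℕ) : ℝ) * (p / (p + 1))) *
        V ^ (-p * (1 / (p + 1))) =
        (V ^ (p / (p + 1)) * V ^ (-p * (1 / (p + 1)))) * f ^ (((2 : ℕ) : ℝ) * (p / (p + 1))) := by
      ring
    rw [h3, h1, one_mul]
    have h4 : ((2 : ℕ) : ℝ) * (p / (p + 1)) = 2 * p / (p + 1) := by
      push_cast
      ring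
    rw [h4]

theorem pt_small (q : ℝ) (hq0 : 0 ≤ q) (hq2 : q ≤ 2) (f K : ℝ≥0∞) (h : f ≤ K) :
    f ^ 2 ≤ K ^ (2 - q) * f ^ q := by
  have h1 : f ^ 2 = f ^ (2 - q) * f ^ q := by
    rw [← ENNReal.rpow_add_of_nonneg _ _ (by linarith) hq0, ← ENNReal.rpow_natCast]
    congr 1
    push_cast
    ring
  rw [h1]
  have h2 : f ^ (2 - q) ≤ K ^ (2 - q) := ENNReal.rpow_le_rpow h (by linarith)
  gcongr

/-- the tails of the mass -/
theorem mass_tail {d : ℕ} (p : ℝ) (V : E d → ℝ≥0∞) (hV : Measurable V) (hm : mass p V < ⊤) :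
    Tendsto (fun n : ℕ => ∫⁻ x in {x : E d | (n : ℝ) < ‖x‖}, (V x) ^ (-p)) atTop (𝓝 0) := by
  have hmeas : Measurable (fun x : E d => (V x) ^ (-p)) := hV.pow_const _
  set ν : Measure (E d) := volume.withDensity (fun x : E d => (V x) ^ (-p)) with hν
  have hS : ∀ n : ℕ, MeasurableSet {x : E d | (n : ℝ) < ‖x‖} := fun n =>
    measurableSet_lt measurable_const measurable_norm
  have h1 : ∀ n : ℕ, ν {x : E d | (n : ℝ) < ‖x‖} =
      ∫⁻ x in {x : E d | (n : ℝ) < ‖x‖}, (V x) ^ (-p) := fun n => withDensity_apply _ (hS n)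
  have h2 : Tendsto (fun n : ℕ => ν {x : E d | (n : ℝ) < ‖x‖}) atTop
      (𝓝 (ν (⋂ n : ℕ, {x : E d | (n : ℝ) < ‖x‖}))) := by
    apply tendsto_measure_iInter_atTop
    · intro n
      exact (hS n).nullMeasurableSet
    · intro m n hmn x hx
      have hx' : (n : ℝ) < ‖x‖ := hx
      have hmn' : (m : ℝ) ≤ (n : ℝ) := by exact_mod_cast hmn
      exact lt_of_le_of_lt hmn' hx'
    · refine ⟨0, ?_⟩
      rw [h1 0]
      refine ne_top_of_le_ne_top hm.ne ?_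
      exact setLIntegral_le_lintegral _ _
  have h3 : (⋂ n : ℕ, {x : E d | (n : ℝ) < ‖x‖}) = ∅ := by
    ext x
    simp only [Set.mem_iInter, Set.mem_ofPred_eq, Set.mem_empty_iff_false, iff_false, not_forall,
      not_lt]
    obtain ⟨n, hn⟩ := exists_nat_ge ‖x‖
    exact ⟨n, hn⟩
  rw [h3, measure_empty] at h2
  refine h2.congr ?_
  intro n
  exact h1 n

theorem tail (h1 : S_MOL) (h2 : S_CONV) (h3 : S_TR) : S_TAIL := by
  intro d p V hd hp hV hmass M η hM hη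
  set r : ℝ := Real.sqrt (η / (8 * M)) with hr
  have hr0 : 0 < r := Real.sqrt_pos.2 (by positivity)
  have hr2 : r ^ 2 = η / (8 * M) := Real.sq_sqrt (by positivity)
  obtain ⟨χ, hχ⟩ := (h2 d hd).1 r hr0
  obtain ⟨C, hC0, hC⟩ := h1 d χ hχ.tf
  set C₁ : ℝ := C * M ^ (1 / 2 : ℝ) with hC₁
  have hC₁0 : 0 ≤ C₁ := mul_nonneg hC0 (Real.rpow_nonneg hM.le _)
  set K : ℝ≥0∞ := ENNReal.ofReal (2 * C₁ + 1) with hK
  set q : ℝ := 2 * p / (p + 1) with hq
  have hq0 : 0 ≤ q := by positivity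
  have hq2 : q ≤ 2 := by
    rw [hq, div_le_iff₀ (by positivity)]
    linarith
  set c : ℝ≥0∞ := K ^ (2 - q) * (ENNReal.ofReal M) ^ (p / (p + 1)) with hc
  have hKt : K ^ (2 - q) ≠ ⊤ := ENNReal.rpow_ne_top_of_nonneg (by linarith) ENNReal.ofReal_ne_top
  have hct : c ≠ ⊤ :=
    ENNReal.mul_ne_top hKt (ENNReal.rpow_ne_top_of_nonneg (by positivity) ENNReal.ofReal_ne_top)
  -- the choice of `R`
  have hlim : Tendsto (fun n : ℕ => c * (∫⁻ x in {x : E d | (n : ℝ) < ‖x‖},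
      (V x) ^ (-p)) ^ (1 / (p + 1))) atTop (𝓝 0) := by
    have h4 : Tendsto (fun n : ℕ => (∫⁻ x in {x : E d | (n : ℝ) < ‖x‖},
        (V x) ^ (-p)) ^ (1 / (p + 1))) atTop (𝓝 (0 ^ (1 / (p + 1)))) :=
      (ENNReal.continuous_rpow_const.tendsto 0).comp (mass_tail p V hV hmass)
    rw [ENNReal.zero_rpow_of_pos (by positivity)] at h4
    have h5 := ENNReal.Tendsto.const_mul h4 (Or.inr hct)
    rwa [mul_zero] at h5
  have hev : ∀ᶠ n : ℕ in atTop, c * (∫⁻ x in {x : E d | (n : ℝ) < ‖x‖},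
      (V x) ^ (-p)) ^ (1 / (p + 1)) < ENNReal.ofReal (η / 2) :=
    hlim.eventually_lt_const (by rw [ENNReal.ofReal_pos]; linarith)
  obtain ⟨n, hn⟩ := hev.exists
  refine ⟨(n : ℝ), ?_⟩
  intro u g hu hE
  have hsq : Y315.OP.sq u ≤ ENNReal.ofReal M := le_trans le_self_add hE
  have hen : energy V u g ≤ ENNReal.ofReal M := le_trans le_add_self hE
  have hg : ∫⁻ x, ‖g x‖ₑ ^ 2 ≤ ENNReal.ofReal M := le_trans le_self_add hen
  have hVu : ∫⁻ x, V x * ‖u x‖ₑ ^ 2 ≤ ENNReal.ofReal M := le_trans le_add_self hen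
  have hmol : ∀ x, |mol χ u x| ≤ C₁ := by
    intro x
    refine ((hC u hu.mu).2.1 x).trans ?_
    rw [hC₁]
    refine mul_le_mul_of_nonneg_left ?_ hC0
    refine Real.rpow_le_rpow ENNReal.toReal_nonneg ?_ (by norm_num)
    exact ENNReal.toReal_le_of_le_ofReal hM.le hsq
  have humeas : AEMeasurable (fun x => ‖u x‖ₑ) := hu.mu.aestronglyMeasurable.enorm
  -- `V` is almost everywhere nonzero
  have hV0 : ∀ᵐ x : E d, V x ≠ 0 := by
    have h5 : ∀ᵐ x : E d, (V x) ^ (-p) < ⊤ :=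
      ae_lt_top (hV.pow_const _) hmass.ne
    filter_upwards [h5] with x hx h0
    rw [h0, ENNReal.zero_rpow_of_neg (by linarith)] at hx
    exact lt_irrefl _ hx
  have hVt : ∀ᵐ x : E d, V x = ⊤ → ‖u x‖ₑ = 0 := by
    have h5 : ∀ᵐ x : E d, V x * ‖u x‖ₑ ^ 2 < ⊤ :=
      ae_lt_top' (hV.aemeasurable.mul (humeas.pow_const 2)) hu.fin.ne
    filter_upwards [h5] with x hx h0
    by_contra hne
    rw [h0, ENNReal.top_mul (pow_ne_zero 2 hne)] at hx
    exact lt_irrefl _ hx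
  set F : E d → ℝ≥0∞ := fun x => (V x * ‖u x‖ₑ ^ 2) ^ (p / (p + 1)) with hF
  set G : E d → ℝ≥0∞ := fun x => ((V x) ^ (-p)) ^ (1 / (p + 1)) with hG
  have hFm : AEMeasurable F := (hV.aemeasurable.mul (humeas.pow_const 2)).pow_const _
  have hGm : AEMeasurable G := ((hV.pow_const _).pow_const _).aemeasurable
  have hpt : ∀ᵐ x : E d, ‖u x‖ₑ ^ 2 ≤
      4 * ‖mol χ u x - u x‖ₑ ^ 2 + K ^ (2 - q) * (F x * G x) := by
    filter_upwards [hV0, hVt] with x hx0 hxt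
    rcases le_or_gt ‖u x‖ₑ K with h | h
    · refine le_trans ?_ le_add_self
      refine (pt_small q hq0 hq2 _ _ h).trans ?_
      have h6 := pt_holder p hp ‖u x‖ₑ (V x) hx0 hxt
      gcongr
    · refine le_trans ?_ le_self_add
      refine pt_large (u x) (mol χ u x) C₁ (hmol x) ?_
      rw [hK, Real.enorm_eq_ofReal_abs] at h
      exact (ENNReal.ofReal_lt_ofReal_iff_of_nonneg (by linarith)).1 h
  set A : Set (E d) := {x : E d | (n : ℝ) < ‖x‖} with hA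
  have hhol : ∫⁻ x in A, F x * G x ≤
      (ENNReal.ofReal M) ^ (p / (p + 1)) * (∫⁻ x in A, (V x) ^ (-p)) ^ (1 / (p + 1)) := by
    have hpq : ((p + 1) / p).HolderConjugate (p + 1) := by
      rw [Real.holderConjugate_iff]
      constructor
      · rw [lt_div_iff₀ hp]
        linarith
      · field_simp
    have h6 := ENNReal.lintegral_mul_le_Lp_mul_Lq (volume.restrict A) hpq
      hFm.restrict hGm.restrict
    have h7 : ∀ x, F x ^ ((p + 1) / p) = V x * ‖u x‖ₑ ^ 2 := by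
      intro x
      rw [hF]
      show ((V x * ‖u x‖ₑ ^ 2) ^ (p / (p + 1))) ^ ((p + 1) / p) = _
      rw [← ENNReal.rpow_mul]
      have h8 : p / (p + 1) * ((p + 1) / p) = 1 := by
        field_simp
      rw [h8, ENNReal.rpow_one]
    have h9 : ∀ x, G x ^ (p + 1) = (V x) ^ (-p) := by
      intro x
      rw [hG]
      show (((V x) ^ (-p)) ^ (1 / (p + 1))) ^ (p + 1) = _
      rw [← ENNReal.rpow_mul]
      have h8 : 1 / (p + 1) * (p + 1) = 1 := by
        field_simp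
      rw [h8, ENNReal.rpow_one]
    simp only [h7, h9] at h6
    have h10 : (1 : ℝ) / ((p + 1) / p) = p / (p + 1) := by
      field_simp
    rw [h10] at h6
    refine h6.trans ?_
    have h11 : ∫⁻ x in A, V x * ‖u x‖ₑ ^ 2 ≤ ENNReal.ofReal M :=
      (setLIntegral_le_lintegral _ _).trans hVu
    have h12 : (∫⁻ x in A, V x * ‖u x‖ₑ ^ 2) ^ (p / (p + 1)) ≤
        (ENNReal.ofReal M) ^ (p / (p + 1)) := ENNReal.rpow_le_rpow h11 (by positivity)
    gcongr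
  have hfirst : ∫⁻ x in A, 4 * ‖mol χ u x - u x‖ₑ ^ 2 ≤ ENNReal.ofReal (η / 2) := by
    calc ∫⁻ x in A, 4 * ‖mol χ u x - u x‖ₑ ^ 2
        ≤ ∫⁻ x, 4 * ‖mol χ u x - u x‖ₑ ^ 2 := setLIntegral_le_lintegral _ _
      _ = 4 * Y315.OP.sq (fun x => mol χ u x - u x) := by
        rw [lintegral_const_mul' _ _ (by norm_num)]
        rfl
      _ ≤ 4 * (ENNReal.ofReal (r ^ 2) * ∫⁻ x, ‖g x‖ₑ ^ 2) := by
        have h6 := h3 d r χ hd hr0 hχ u g hu.mu hu.mg hu.wg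
        gcongr
      _ ≤ 4 * (ENNReal.ofReal (r ^ 2) * ENNReal.ofReal M) := by
        gcongr
      _ = ENNReal.ofReal (η / 2) := by
        have h4 : (4 : ℝ≥0∞) = ENNReal.ofReal 4 := by norm_num
        rw [h4, ← ENNReal.ofReal_mul (by positivity), ← ENNReal.ofReal_mul (by norm_num), hr2]
        congr 1
        field_simp
        ring
  have hsecond : ∫⁻ x in A, K ^ (2 - q) * (F x * G x) ≤ ENNReal.ofReal (η / 2) := by
    rw [lintegral_const_mul' _ _ hKt]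
    calc K ^ (2 - q) * ∫⁻ x in A, F x * G x
        ≤ K ^ (2 - q) * ((ENNReal.ofReal M) ^ (p / (p + 1)) *
          (∫⁻ x in A, (V x) ^ (-p)) ^ (1 / (p + 1))) := by gcongr
      _ = c * (∫⁻ x in A, (V x) ^ (-p)) ^ (1 / (p + 1)) := by
        rw [hc]
        ring
      _ ≤ ENNReal.ofReal (η / 2) := hn.le
  calc ∫⁻ x in A, ‖u x‖ₑ ^ 2
      ≤ ∫⁻ x in A, (4 * ‖mol χ u x - u x‖ₑ ^ 2 + K ^ (2 - q) * (F x * G x)) :=
        lintegral_mono_ae (ae_restrict_of_ae hpt)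
    _ = (∫⁻ x in A, 4 * ‖mol χ u x - u x‖ₑ ^ 2) + ∫⁻ x in A, K ^ (2 - q) * (F x * G x) :=
        lintegral_add_right' _ ((hFm.mul hGm).const_mul _).restrict
    _ ≤ ENNReal.ofReal (η / 2) + ENNReal.ofReal (η / 2) := add_le_add hfirst hsecond
    _ = ENNReal.ofReal η := by
        rw [← ENNReal.ofReal_add (by linarith) (by linarith)]
        congr 1
        ring

end Pool.Agent.Y277.OP
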